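import Mathlib

set_option autoImplicit false

open Set Topology Filter

namespace Pool.Agent.Results.MP_254ca6_gt.Reversed

/-- `X` is `u`-compact: every sequence has a `u`-limit in `X`. -/
def UCompact (u : Ultrafilter ℕ) (X : Type) [TopologicalSpace X] : Prop :=
  ∀ f : ℕ → X, ∃ x, Tendsto f u (𝓝 x)

/-- `X` is discretely `u`-compact. -/
def DiscUCompact (u : Ultrafilter ℕ) (X : Type) [TopologicalSpace X] : Prop :=
  ∀ f : ℕ → X, Function.Injective f → DiscreteTopology (range f) → ∃ x, Tendsto f u (𝓝 x)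

/-- The Comfort preorder. -/
def LeC (u v : Ultrafilter ℕ) : Prop :=
  ∀ (X : Type) [TopologicalSpace X] [T35Space X], UCompact v X → UCompact u X

/-- The Comfort–Frolík preorder. -/
def LeCF (u v : Ultrafilter ℕ) : Prop :=
  ∀ (X : Type) [TopologicalSpace X] [T35Space X], DiscUCompact v X → DiscUCompact u X

/-- The Rudin–Frolík preorder (`Ultrafilter ℕ` carries the Stone topology of `βω`). -/
def LeRF (u v : Ultrafilter ℕ) : Prop :=
  ∃ f : ℕ → Ultrafilter ℕ, Function.Injective f ∧ DiscreteTopology (range f) ∧ Tendsto f u (𝓝 v)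

lemma disc_of {X : Type} [TopologicalSpace X] {f : ℕ → X} (U : ℕ → Set X) (hU : ∀ n, IsOpen (U n))
    (h : ∀ m n, f m ∈ U n ↔ m = n) : DiscreteTopology (range f) := by
  refine discreteTopology_iff_isOpen_singleton.2 ?_
  rintro ⟨_, n, rfl⟩
  convert (hU n).preimage continuous_subtype_val using 1
  ext ⟨_, m, rfl⟩
  simp only [mem_singleton_iff, Subtype.mk.injEq, mem_preimage, h]
  exact ⟨fun e => (h m n).1 (e ▸ (h n n).2 rfl), fun e => by rw [e]⟩

lemma cf_le_c (u v : Ultrafilter ℕ) (h : LeCF u v) : LeC u v := by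
  intro X _ _ hX f
  have hv : DiscUCompact v (X × Ultrafilter ℕ) := fun g _ _ => by
    obtain ⟨x, hx⟩ := hX (fun n => (g n).1)
    obtain ⟨w, -, hw⟩ := isCompact_univ.ultrafilter_le_nhds (v.map fun n => (g n).2) (by simp)
    exact ⟨(x, w), hx.prodMk_nhds hw⟩
  obtain ⟨p, hp⟩ := h _ hv (fun n => (f n, pure n))
    (fun a b e => Ultrafilter.pure_injective (congrArg Prod.snd e))
    (disc_of (fun n => Prod.snd ⁻¹' {w | {n} ∈ w})
      (fun n => (ultrafilter_isOpen_basic _).preimage continuous_snd) (by simp))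
  exact ⟨p.1, (continuous_fst.tendsto p).comp hp⟩

lemma cf_rev (u v : Ultrafilter ℕ) (hu : ∀ n, u ≠ pure n) (h : LeCF u v) : LeRF v u := by
  by_contra hn
  have hv : DiscUCompact v {w : Ultrafilter ℕ // w ≠ u} := fun g hg hd => by
    obtain ⟨w, -, hw⟩ := isCompact_univ.ultrafilter_le_nhds (v.map fun n => (g n).1) (by simp)
    have hwu : w ≠ u := by
      rintro rfl
      refine hn ⟨fun n => (g n).1, Subtype.val_injective.comp hg, ?_, hw⟩
      have : range (fun n => (g n).1) = Subtype.val '' range g := range_comp _ _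
      rw [this]
      exact (IsEmbedding.subtypeVal.homeomorphImage (range g)).discreteTopology_iff.1 hd
    exact ⟨⟨w, hwu⟩, tendsto_subtype_rng.2 hw⟩
  obtain ⟨p, hp⟩ := h _ hv (fun n => ⟨pure n, (hu n).symm⟩)
    (fun a b e => Ultrafilter.pure_injective (congrArg Subtype.val e))
    (disc_of (fun n => Subtype.val ⁻¹' {w | {n} ∈ w})
      (fun n => (ultrafilter_isOpen_basic _).preimage continuous_subtype_val) (by simp))
  exact p.2 (tendsto_nhds_unique (tendsto_subtype_rng.1 hp) u.tendsto_pure_self)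

lemma rf_rk {u v : Ultrafilter ℕ} (h : LeRF v u) : ∃ g : ℕ → ℕ, u.map g = v := by
  classical
  obtain ⟨f, hf, hd, hl⟩ := h
  have : ∀ n, ∃ A : Set ℕ, A ∈ f n ∧ ∀ m, A ∈ f m → m = n := fun n => by
    obtain ⟨U, hU, he⟩ := isOpen_induced_iff.1
      (isOpen_discrete ({⟨f n, n, rfl⟩} : Set (range f)))
    have h1 : ∀ m, f m ∈ U ↔ m = n := fun m => by
      have := Set.ext_iff.1 he ⟨f m, m, rfl⟩
      simpa [hf.eq_iff] using this
    obtain ⟨_, ⟨A, rfl⟩, hA, hAU⟩ :=
      ultrafilterBasis_is_basis.exists_subset_of_mem_open ((h1 n).2 rfl) hU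
    exact ⟨A, hA, fun m hm => (h1 m).1 (hAU hm)⟩
  choose A hA hA' using this
  let g : ℕ → ℕ := fun k => if h : ∃ n, k ∈ A n then Nat.find h else 0
  have hg : ∀ n, g ⁻¹' {n} ∈ f n := fun n => by
    have h1 : (⋂ k ∈ Finset.range n, (A k)ᶜ) ∈ (f n : Filter ℕ) :=
      (biInter_finset_mem _).2 fun k hk => Ultrafilter.compl_mem_iff_notMem.2 fun h =>
        absurd (Finset.mem_range.1 hk) (by rw [hA' k n h]; exact lt_irrefl _)
    refine mem_of_superset (f := (f n : Filter ℕ)) (inter_mem (hA n) h1) fun k hk => ?_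
    have h2 : ∃ n, k ∈ A n := ⟨n, hk.1⟩
    simp only [g, mem_preimage, dif_pos h2, mem_singleton_iff, Nat.find_eq_iff]
    exact ⟨hk.1, fun j hj => mem_iInter₂.1 hk.2 j (Finset.mem_range.2 hj)⟩
  refine ⟨g, (Ultrafilter.eq_of_le (fun S hS => ?_)).symm.symm⟩
  refine (ultrafilter_isClosed_basic (g ⁻¹' S)).mem_of_tendsto hl ?_
  filter_upwards [hS] with n hn
  exact mem_of_superset (f := (f n : Filter ℕ)) (hg n) (preimage_mono (singleton_subset_iff.2 hn))

lemma no_color {u : Ultrafilter ℕ} {f : ℕ → ℕ} (h : u.map f = u) (c : ℕ → Bool) (S : Set ℕ)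
    (hc : ∀ n ∈ S, c (f n) ≠ c n) : S ∉ u := fun hS => by
  obtain ⟨b, hb⟩ := (u.map c).eq_pure_of_finite
  have h1 : c ⁻¹' {b} ∈ u := by rw [← Ultrafilter.mem_map, hb]; simp
  have h2 : f ⁻¹' (c ⁻¹' {b}) ∈ u := by rw [← Ultrafilter.mem_map, h]; exact h1
  obtain ⟨n, ⟨hn1, hn2⟩, hn3⟩ := u.nonempty_of_mem (inter_mem (inter_mem hS h1) h2)
  exact hc n hn1 ((hn3 : c (f n) = b).trans (hn2 : c n = b).symm)

lemma fix_of_map {u : Ultrafilter ℕ} {f : ℕ → ℕ} (h : u.map f = u) : {n | f n = n} ∈ u := by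
  classical
  have h1 : {n | f n < n} ∉ u := by
    obtain ⟨c, hc⟩ : ∃ c : ℕ → Bool, ∀ n, c n = if f n < n then !c (f n) else false :=
      ⟨(wellFounded_lt (α := ℕ)).fix fun n ih => if h : f n < n then !ih (f n) h else false,
        fun n => by rw [WellFounded.fix_eq]; split_ifs <;> rfl⟩
    refine no_color h c _ fun n hn => ?_
    rw [hc n, if_pos (show f n < n from hn)]; cases c (f n) <;> simp
  have h2 : {n | n < f n} ∉ u := by
    have : ∀ N : ℕ, ∃ c : ℕ → Bool, ∀ n < N, n < f n → c (f n) ≠ c n := fun N => by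
      obtain ⟨c, hc⟩ : ∃ c : ℕ → Bool, ∀ n, c n = if N - f n < N - n then !c (f n) else false :=
        ⟨(InvImage.wf (fun n => N - n) (wellFounded_lt (α := ℕ))).fix
          fun n ih => if h : N - f n < N - n then !ih (f n) h else false,
          fun n => by rw [WellFounded.fix_eq]; split_ifs <;> rfl⟩
      refine ⟨c, fun n hn hf => ?_⟩
      rw [hc n, if_pos (by omega)]; cases c (f n) <;> simp
    choose c hc using this
    choose d hd using fun n => ((hyperfilter ℕ).map fun N => c N n).eq_pure_of_finite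
    have hd' : ∀ n, {N | c N n = d n} ∈ hyperfilter ℕ := fun n => by
      change (fun N => c N n) ⁻¹' {d n} ∈ _
      rw [← Ultrafilter.mem_map, hd]; simp
    refine no_color h d _ fun n hn => ?_
    have h3 : Ioi n ∈ hyperfilter ℕ := Nat.hyperfilter_le_atTop (Ioi_mem_atTop n)
    obtain ⟨N, ⟨a, b⟩, e⟩ := (hyperfilter ℕ).nonempty_of_mem
      (inter_mem (inter_mem (hd' n) (hd' (f n))) h3)
    rw [← (a : c N n = d n), ← (b : c N (f n) = d (f n))]
    exact hc N n e hn
  by_contra h3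
  obtain ⟨n, ⟨a, b⟩, e⟩ := u.nonempty_of_mem (inter_mem (inter_mem
    (Ultrafilter.compl_mem_iff_notMem.2 h1) (Ultrafilter.compl_mem_iff_notMem.2 h2))
    (Ultrafilter.compl_mem_iff_notMem.2 h3))
  exact e (le_antisymm (not_lt.1 b) (not_lt.1 a))

/-- The Fubini square of `u`, moved to `ℕ` by the pairing function. -/
def sq (u : Ultrafilter ℕ) : Ultrafilter ℕ := u.bind fun n => u.map (Nat.pair n)

lemma mem_sq {u : Ultrafilter ℕ} {S : Set ℕ} : S ∈ sq u ↔ {n | {m | Nat.pair n m ∈ S} ∈ u} ∈ u :=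
  Iff.rfl

lemma sq_fst (u : Ultrafilter ℕ) : (sq u).map (fun k => k.unpair.1) = u :=
  Ultrafilter.eq_of_le fun S hS => mem_sq.2 (mem_of_superset (f := (u : Filter ℕ)) hS
    fun n hn => (univ_mem' fun m => by simpa using hn : _ ∈ (u : Filter ℕ)))

lemma sq_snd (u : Ultrafilter ℕ) : (sq u).map (fun k => k.unpair.2) = u :=
  Ultrafilter.eq_of_le fun S hS => mem_sq.2 (mem_of_superset (f := (u : Filter ℕ)) univ_mem
    fun n _ => by simpa using hS)

lemma rf_sq (u : Ultrafilter ℕ) : LeRF u (sq u) := by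
  have key : ∀ m n, {k : ℕ | k.unpair.1 = n} ∈ u.map (Nat.pair m) ↔ m = n := fun m n => by
    rw [Ultrafilter.mem_map]
    by_cases h : m = n
    · exact iff_of_true (univ_mem' fun k => by simpa using h : _ ∈ (u : Filter ℕ)) h
    · simp [h, preimage]
  refine ⟨fun n => u.map (Nat.pair n), fun a b e => (key a b).1 ?_,
    disc_of (fun n => {w | {k : ℕ | k.unpair.1 = n} ∈ w}) (fun n => ultrafilter_isOpen_basic _) key,
    ?_⟩
  · rw [show u.map (Nat.pair a) = u.map (Nat.pair b) from e]; exact (key b b).2 rfl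
  · refine (ultrafilterBasis_is_basis.nhds_hasBasis.tendsto_right_iff).2 ?_
    rintro _ ⟨⟨S, rfl⟩, hS⟩
    exact hS

lemma not_rf_sq {u : Ultrafilter ℕ} (hu : ∀ n, u ≠ pure n) : ¬ LeRF (sq u) u := fun h => by
  obtain ⟨g, hg⟩ := rf_rk h
  have h1 := fix_of_map (u := u) (f := (fun k => k.unpair.1) ∘ g)
    (by rw [← Ultrafilter.map_map, hg, sq_fst])
  have h2 := fix_of_map (u := u) (f := (fun k => k.unpair.2) ∘ g)
    (by rw [← Ultrafilter.map_map, hg, sq_snd])
  have h3 : {k : ℕ | k.unpair.2 = k.unpair.1} ∈ sq u := by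
    rw [← hg, Ultrafilter.mem_map]
    exact mem_of_superset (f := (u : Filter ℕ)) (inter_mem h1 h2) fun n hn =>
      (hn.2 : _ = n).trans (hn.1 : _ = n).symm
  obtain ⟨n, hn⟩ := u.nonempty_of_mem (mem_sq.1 h3)
  refine hu n (Ultrafilter.eq_of_le (le_pure_iff.2 ?_))
  simpa using hn

theorem result :
    (∀ u v, LeCF u v → LeC u v) ∧
    (∀ u v, (∀ n, u ≠ pure n) → LeCF u v → LeRF v u) ∧
    (∀ u, (∀ n, u ≠ pure n) → ∃ v, LeRF u v ∧ LeC u v ∧ ¬ LeCF u v) ∧
    LeCF ≠ LeC ∧ LeCF ≠ LeRF := by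
  have key : ∀ u, (∀ n, u ≠ pure n) → ∃ v, LeRF u v ∧ LeC u v ∧ ¬ LeCF u v := fun u hu => by
    refine ⟨sq u, rf_sq u, fun X _ _ hX f => ?_, fun h => not_rf_sq hu (cf_rev _ _ hu h)⟩
    obtain ⟨x, hx⟩ := hX (f ∘ fun k => k.unpair.1)
    refine ⟨x, ?_⟩
    rw [← sq_fst u]
    exact hx
  obtain ⟨v, h1, h2, h3⟩ := key (hyperfilter ℕ) fun n h => by
    have : ({n} : Set ℕ) ∈ hyperfilter ℕ := by rw [h]; simp
    exact (finite_singleton n).notMem_hyperfilter this
  exact ⟨cf_le_c, cf_rev, key, fun h => h3 (h ▸ h2), fun h => h3 (h ▸ h1)⟩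

end Pool.Agent.Results.MP_254ca6_gt.Reversed
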